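import Mathlib

/-!
# MP_3240be_co: gluing along a forest

Blobs `b : β` are attached to passenger sets `i : ι` (relation `att`).  If the incidence graph
blobs - passenger sets of the used blobs is a forest, local permutations can be chosen such that
all prescribed transitions `g b i` are respected: `σ i = τ b * g b i`.
-/

set_option autoImplicit false
set_option linter.unusedSectionVars false

namespace MP3240X

open Finset

variable {β ι : Type}

/-- `i` and `j` are attached to a common blob of `S` -/
def ConS (att : β → ι → Prop) (S : Finset β) (i j : ι) : Prop := ∃ b ∈ S, att b i ∧ att b j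

/-- `i` and `j` are connected by blobs of `S` -/
def Con (att : β → ι → Prop) (S : Finset β) : ι → ι → Prop :=
  Relation.ReflTransGen (ConS att S)

/-- two passenger sets of a blob of `S` are not connected by the other blobs of `S` -/
def Frst [DecidableEq β] (att : β → ι → Prop) (S : Finset β) : Prop :=
  ∀ b ∈ S, ∀ i j, att b i → att b j → Con att (S.erase b) i j → i = j

theorem ConS.symm {att : β → ι → Prop} {S : Finset β} {i j : ι} (h : ConS att S i j) :
    ConS att S j i := by
  obtain ⟨b, h1, h2, h3⟩ := h
  exact ⟨b, h1, h3, h2⟩

theorem Con.symm {att : β → ι → Prop} {S : Finset β} {i j : ι} (h : Con att S i j) :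
    Con att S j i := by
  induction h with
  | refl => exact Relation.ReflTransGen.refl
  | tail _ h2 ih => exact Relation.ReflTransGen.head (ConS.symm h2) ih

theorem Con.mono {att : β → ι → Prop} {S S' : Finset β} (hS : S ⊆ S') {i j : ι}
    (h : Con att S i j) : Con att S' i j := by
  induction h with
  | refl => exact Relation.ReflTransGen.refl
  | tail _ h2 ih =>
    obtain ⟨b, h3, h4⟩ := h2
    exact Relation.ReflTransGen.tail ih ⟨b, hS h3, h4⟩

theorem Con.trans {att : β → ι → Prop} {S : Finset β} {i j k : ι} (h : Con att S i j)
    (h' : Con att S j k) : Con att S i k := Relation.ReflTransGen.trans h h'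

theorem Frst.mono [DecidableEq β] {att : β → ι → Prop} {S S' : Finset β} (hS : S ⊆ S')
    (h : Frst att S') : Frst att S := by
  intro b hb i j hi hj hc
  exact h b (hS hb) i j hi hj (hc.mono (Finset.erase_subset_erase b hS))

/-- **Gluing along a forest.** -/
theorem gain {G : Type} [Group G] [DecidableEq β] (att : β → ι → Prop) (g : β → ι → G) :
    ∀ (N : ℕ) (S : Finset β), S.card = N → Frst att S →
      ∃ (τ : β → G) (σ : ι → G), ∀ b ∈ S, ∀ i, att b i → σ i = τ b * g b i := by
  classical
  intro N
  induction N with
  | zero =>
    intro S hS _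
    refine ⟨fun _ => 1, fun _ => 1, ?_⟩
    intro b hb
    rw [Finset.card_eq_zero.mp hS] at hb
    exact absurd hb (Finset.notMem_empty b)
  | succ N ih =>
    intro S hS hF
    obtain ⟨b, hb⟩ : S.Nonempty := by
      rw [← Finset.card_pos]
      omega
    obtain ⟨τ', σ', h⟩ := ih (S.erase b)
      (by rw [Finset.card_erase_of_mem hb, hS]; rfl) (hF.mono (Finset.erase_subset _ _))
    -- the multiplier of a component
    set π : ι → G := fun j => if hj : ∃ i, att b i ∧ Con att (S.erase b) i j then
      g b hj.choose * (σ' hj.choose)⁻¹ else 1 with hπ
    have hπ1 : ∀ i j, att b i → Con att (S.erase b) i j → π j = g b i * (σ' i)⁻¹ := by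
      intro i j hi hc
      have hj : ∃ i, att b i ∧ Con att (S.erase b) i j := ⟨i, hi, hc⟩
      have h1 := hj.choose_spec
      have h2 : hj.choose = i := hF b hb _ _ h1.1 hi (h1.2.trans hc.symm)
      simp only [hπ]
      rw [dif_pos hj, h2]
    have hπ2 : ∀ j j', Con att (S.erase b) j j' → π j = π j' := by
      intro j j' hc
      by_cases hj : ∃ i, att b i ∧ Con att (S.erase b) i j
      · obtain ⟨i, hi, hij⟩ := hj
        rw [hπ1 i j hi hij, hπ1 i j' hi (hij.trans hc)]
      · have hj' : ¬ ∃ i, att b i ∧ Con att (S.erase b) i j' := by
          rintro ⟨i, hi, hij⟩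
          exact hj ⟨i, hi, hij.trans hc.symm⟩
        simp only [hπ]
        rw [dif_neg hj, dif_neg hj']
    set τ : β → G := fun b' => if b' = b then 1 else
      (if hb' : ∃ j, att b' j then π hb'.choose else 1) * τ' b' with hτ
    refine ⟨τ, fun j => π j * σ' j, ?_⟩
    intro b' hb' i hi
    by_cases hbb : b' = b
    · rw [hbb] at hi ⊢
      have h1 : τ b = 1 := by simp [hτ]
      show π i * σ' i = τ b * g b i
      rw [h1, one_mul, hπ1 i i hi Relation.ReflTransGen.refl, inv_mul_cancel_right]
    · have hbe : b' ∈ S.erase b := Finset.mem_erase.mpr ⟨hbb, hb'⟩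
      have hex : ∃ j, att b' j := ⟨i, hi⟩
      have h1 : τ b' = π hex.choose * τ' b' := by
        simp only [hτ]
        rw [if_neg hbb, dif_pos hex]
      have h2 : π hex.choose = π i := by
        apply hπ2
        exact Relation.ReflTransGen.single ⟨b', hbe, hex.choose_spec, hi⟩
      show π i * σ' i = τ b' * g b' i
      rw [h1, h2, mul_assoc, ← h b' hbe i hi]

/-- Two blobs of the same linking class that are attached to the same passenger set are attached
to it in the same way.  `cls b i` = the way in which `b` is attached to `i`. -/
theorem same_cls {Γ : Type} [DecidableEq β] {att : β → ι → Prop} {S : Finset β}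
    (hF : Frst att S) (cl : β → ι → Γ) :
    ∀ (N : ℕ) (f : ℕ → β), (∀ k, k ≤ N → f k ∈ S) →
      (∀ k, k < N → ∃ j, att (f k) j ∧ att (f (k + 1)) j ∧ cl (f k) j = cl (f (k + 1)) j) →
      ∀ i, att (f 0) i → att (f N) i → cl (f 0) i = cl (f N) i := by
  intro N
  induction N using Nat.strong_induction_on with
  | _ N ih =>
    intro f hf hl i h0 hN
    rcases Nat.eq_zero_or_pos N with h | hpos
    · rw [h]
    by_cases hrep : ∃ a, 0 < a ∧ a ≤ N ∧ f a = f 0
    · obtain ⟨a, ha0, haN, hfa⟩ := hrep
      have h1 := ih (N - a) (by omega) (fun k => f (k + a)) (fun k hk => hf _ (by omega))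
        (by
          intro k hk
          have := hl (k + a) (by omega)
          rw [show k + a + 1 = k + 1 + a by ring] at this
          exact this) i (by simp only [zero_add]; rw [hfa]; exact h0)
        (by
          have : N - a + a = N := by omega
          simp only [this]
          exact hN)
      have h2 : N - a + a = N := by omega
      simp only [zero_add, h2] at h1
      rw [← h1, hfa]
    · push Not at hrep
      obtain ⟨j, hj0, hj1, hcl⟩ := hl 0 hpos
      have hji : j = i := by
        refine hF (f 0) (hf 0 (by omega)) j i hj0 h0 ?_
        -- connect `j` and `i` by the blobs `f 1, ..., f N`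
        have hcon : ∀ k, k < N → ∀ j', att (f (k + 1)) j' → Con att (S.erase (f 0)) j j' := by
          intro k
          induction k with
          | zero =>
            intro _ j' hj'
            exact Relation.ReflTransGen.single ⟨f 1,
              Finset.mem_erase.mpr ⟨hrep 1 (by omega) (by omega), hf 1 (by omega)⟩, hj1, hj'⟩
          | succ k ihk =>
            intro hk j' hj'
            obtain ⟨l, hl1, hl2, -⟩ := hl (k + 1) (by omega)
            exact Relation.ReflTransGen.tail (ihk (by omega) l hl1) ⟨f (k + 1 + 1),
              Finset.mem_erase.mpr ⟨hrep _ (by omega) (by omega), hf _ (by omega)⟩, hl2, hj'⟩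
        have := hcon (N - 1) (by omega) i (by
          rw [show N - 1 + 1 = N by omega]
          exact hN)
        exact this
      subst hji
      have h1 := ih (N - 1) (by omega) (fun k => f (k + 1)) (fun k hk => hf _ (by omega))
        (by
          intro k hk
          exact hl (k + 1) (by omega)) j (by simpa using hj1)
        (by
          have : N - 1 + 1 = N := by omega
          simp only [this]
          exact hN)
      have h2 : N - 1 + 1 = N := by omega
      simp only [zero_add, h2] at h1
      rw [hcl, h1]

end MP3240X
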