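import Pool.Agent.Lib.MP_3240be_co.H36.Chrom.Hyper
import Pool.Agent.Lib.MP_3240be_co.X70.Gain

/-!
# MP_3240be_co: a sparse system of hyperedges is a forest
-/

set_option autoImplicit false
set_option linter.unusedSectionVars false

namespace MP3240X

open Finset
open Pool.Agent.Lib.MP_3240be_co.H36.Chrom (Sparse Leaf)

/-- If every subfamily with at least two members has a leaf, the family is a forest. -/
theorem frst_of_leaf {T V M : Type} [DecidableEq M] {δ : M → T → V} :
    ∀ (N : ℕ) (S : Finset M), S.card = N →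
      (∀ S' ⊆ S, 2 ≤ S'.card → ∃ m ∈ S', Leaf δ S' m) →
      Frst (fun (m : M) (v : V) => ∃ t, δ m t = v) S := by
  intro N
  induction N with
  | zero =>
    intro S hS _ b hb
    rw [Finset.card_eq_zero.mp hS] at hb
    exact absurd hb (Finset.notMem_empty b)
  | succ N ih =>
    intro S hS hL
    rcases Nat.lt_or_ge S.card 2 with hlt | hge
    · -- one member
      intro b hb i j _ _ hc
      have h1 : S.erase b = ∅ := by
        rw [← Finset.card_eq_zero, Finset.card_erase_of_mem hb]
        omega
      rw [h1] at hc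
      induction hc with
      | refl => rfl
      | tail _ h2 =>
        obtain ⟨m, hm, -⟩ := h2
        exact absurd hm (Finset.notMem_empty m)
    · obtain ⟨m, hm, hleaf⟩ := hL S (Finset.Subset.refl _) hge
      have hS' : Frst (fun (m : M) (v : V) => ∃ t, δ m t = v) (S.erase m) :=
        ih (S.erase m) (by rw [Finset.card_erase_of_mem hm, hS]; rfl)
          (fun S' h => hL S' (h.trans (Finset.erase_subset _ _)))
      -- two points of `m` which are shared with other members are equal
      have hsh : ∀ i j, (∃ t, δ m t = i) → (∃ t, δ m t = j) →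
          (∃ m' ∈ S.erase m, ∃ t, δ m' t = i) → (∃ m' ∈ S.erase m, ∃ t, δ m' t = j) → i = j := by
        rintro i j ⟨t, rfl⟩ ⟨u, rfl⟩ ⟨m', hm', t', ht'⟩ ⟨m'', hm'', u', hu'⟩
        exact hleaf m' (Finset.mem_of_mem_erase hm') m'' (Finset.mem_of_mem_erase hm'')
          (Finset.ne_of_mem_erase hm') (Finset.ne_of_mem_erase hm'') t t' u u' ht'.symm hu'.symm
      intro b hb i j hi hj hc
      by_cases hbm : b = m
      · rw [hbm] at hc hi hj
        by_contra hij
        apply hij
        have hmem : ∀ x y, Con (fun (m : M) (v : V) => ∃ t, δ m t = v) (S.erase m) x y →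
            x ≠ y → ∃ m' ∈ S.erase m, ∃ t, δ m' t = y := by
          intro x y hxy
          induction hxy with
          | refl => exact fun h => absurd rfl h
          | tail _ h2 _ =>
            intro _
            obtain ⟨m', hm', -, h3⟩ := h2
            exact ⟨m', hm', h3⟩
        exact hsh i j hi hj (hmem j i hc.symm (Ne.symm hij)) (hmem i j hc hij)
      · -- reroute the connection without `m`
        have hbe : b ∈ S.erase m := Finset.mem_erase.mpr ⟨hbm, hb⟩
        have key : ∀ x, Con (fun (m : M) (v : V) => ∃ t, δ m t = v) (S.erase b) i x →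
            ((∃ m' ∈ S.erase m, ∃ t, δ m' t = x) →
              Con (fun (m : M) (v : V) => ∃ t, δ m t = v) ((S.erase m).erase b) i x) ∧
            ((∃ t, δ m t = x) → ∃ p, (∃ t, δ m t = p) ∧ (∃ m' ∈ S.erase m, ∃ t, δ m' t = p) ∧
              Con (fun (m : M) (v : V) => ∃ t, δ m t = v) ((S.erase m).erase b) i p) := by
          intro x hx
          induction hx with
          | refl =>
            refine ⟨fun _ => Relation.ReflTransGen.refl, fun h => ⟨i, h, ⟨b, hbe, hi⟩,
              Relation.ReflTransGen.refl⟩⟩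
          | @tail y x h1 h2 ih2 =>
            obtain ⟨m1, hm1, hy, hx'⟩ := h2
            by_cases h3 : m1 = m
            · rw [h3] at hy hx'
              obtain ⟨p, hp1, hp2, hp3⟩ := ih2.2 hy
              refine ⟨fun hsx => ?_, fun _ => ⟨p, hp1, hp2, hp3⟩⟩
              have : x = p := hsh x p hx' hp1 hsx hp2
              rw [this]
              exact hp3
            · have hm1e : m1 ∈ (S.erase m).erase b := Finset.mem_erase.mpr
                ⟨Finset.ne_of_mem_erase hm1, Finset.mem_erase.mpr
                  ⟨h3, Finset.mem_of_mem_erase hm1⟩⟩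
              have hcy := ih2.1 ⟨m1, Finset.mem_of_mem_erase hm1e, hy⟩
              have hcx : Con (fun (m : M) (v : V) => ∃ t, δ m t = v) ((S.erase m).erase b) i x :=
                Relation.ReflTransGen.tail hcy ⟨m1, hm1e, hy, hx'⟩
              exact ⟨fun _ => hcx, fun h => ⟨x, h, ⟨m1, Finset.mem_of_mem_erase hm1e, hx'⟩, hcx⟩⟩
        exact hS' b hbe i j hi hj ((key j hc).1 ⟨b, hbe, hj⟩)

/-- Sparse systems are forests. -/
theorem frst_of_sparse {T V M : Type} [DecidableEq M] {g : ℕ} {δ : M → T → V}
    (hs : Sparse g δ) (S : Finset M) (hS : S.card ≤ g) :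
    Frst (fun (m : M) (v : V) => ∃ t, δ m t = v) S := by
  refine frst_of_leaf S.card S rfl ?_
  intro S' hS' h2
  obtain ⟨m, hm, -, -, -, hl, -⟩ := hs S' h2 ((Finset.card_le_card hS').trans hS)
  exact ⟨m, hm, hl⟩

/-- The partite version: the passenger set `(j, i)` is attached to `b` if `io b j = i`. -/
theorem frst_pair {T V M : Type} [DecidableEq M] {io : M → T → V}
    (hinj : ∀ b, Function.Injective (io b)) {S : Finset M}
    (h : Frst (fun (m : M) (v : V) => ∃ t, io m t = v) S) :
    Frst (fun (b : M) (t : T × V) => io b t.1 = t.2) S := by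
  rintro b hb ⟨j, i⟩ ⟨j', i'⟩ hi hj hc
  have hmap : ∀ x, Con (fun (b : M) (t : T × V) => io b t.1 = t.2) (S.erase b) (j, i) x →
      Con (fun (m : M) (v : V) => ∃ t, io m t = v) (S.erase b) i x.2 := by
    intro x hx
    induction hx with
    | refl => exact Relation.ReflTransGen.refl
    | tail _ h2 ih =>
      obtain ⟨m, hm, h3, h4⟩ := h2
      exact Relation.ReflTransGen.tail ih ⟨m, hm, ⟨_, h3⟩, ⟨_, h4⟩⟩
  have h1 : i = i' := h b hb i i' ⟨j, hi⟩ ⟨j', hj⟩ (hmap _ hc)
  have h2 : j = j' := hinj b ((hi.trans h1).trans hj.symm)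
  rw [h1, h2]

end MP3240X
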