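import Pool.Agent.Lib.MP_3240be_co.C4.Cri
import Pool.Agent.Lib.MP_3240be_co.X70.Frs

/-!
# MP_3240be_co, THEOREM CORE, row CRQ: CRIT for blobs with several passenger sets

Inner data of the paper of helper39: blobs `b : Bl`, the pair `(xs j, ys j)` of the blob `b` sits on
the pair `ty b j` (a dart of `H`) of the passenger set `(j, io b j)`.  Complexes of type
`((j, i), φ, w)` are attached to the slots `(b, w)` of all blobs `b` with `ty b = φ`, `io b j = i`.
If `S` is a bad set of `L` which is not larger than any bad set of `H`, its image lies in one blob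
and its roots.
-/

set_option autoImplicit false
set_option linter.unusedSectionVars false

namespace MP3240X

open Finset
open MP3240C (BadS CxB)
open Pool.Agent.Lib.MP_3240be_co.H36.Chrom (Sparse)

/-- The vertices of the gadgets: slots, passengers, complexes. -/
inductive VQ {n : ℕ} (H : SimpleGraph (Fin n)) (s : ℕ) (Bl I2 C : Type) : Type
  | b : Bl → Fin n → VQ H s Bl I2 C
  | z : Fin s → I2 → Fin n → VQ H s Bl I2 C
  | g : Fin s → I2 → (Fin s → H.Dart) → Fin n → C → VQ H s Bl I2 C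

section

variable {n p s d : ℕ} {H : SimpleGraph (Fin n)} {Bl I2 C : Type}

/-- A slot `(b, w)` and a passenger `(j, i, v)`. -/
def bz (xs ys : Fin s → Fin n) (ty : Bl → Fin s → H.Dart) (io : Bl → Fin s → I2)
    (b : Bl) (w : Fin n) (j : Fin s) (i : I2) (v : Fin n) : Prop :=
  io b j = i ∧ ((v = (ty b j).fst ∧ H.Adj w (xs j)) ∨ (v = (ty b j).snd ∧ H.Adj w (ys j)))

/-- The blue edges of the gadgets (without the edges between passengers). -/
def cq (xs ys : Fin s → Fin n) (ty : Bl → Fin s → H.Dart) (io : Bl → Fin s → I2)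
    (R : C → C → Prop) (A : C → Prop) : VQ H s Bl I2 C → VQ H s Bl I2 C → Prop
  | .b b w, .b b' w' => b = b' ∧ H.Adj w w'
  | .b b w, .z j i v => bz xs ys ty io b w j i v
  | .z j i v, .b b w => bz xs ys ty io b w j i v
  | .b b w, .g j i φ w' c => io b j = i ∧ ty b = φ ∧ w = w' ∧ A c
  | .g j i φ w' c, .b b w => io b j = i ∧ ty b = φ ∧ w = w' ∧ A c
  | .g j i φ w c, .g j' i' φ' w' c' => (j = j' ∧ i = i' ∧ φ = φ' ∧ w = w') ∧ R c c'
  | _, _ => False

/-- The blob of a slot. -/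
def blob : VQ H s Bl I2 C → Option Bl
  | .b b _ => some b
  | _ => none

/-- The element of the complex. -/
def cel : VQ H s Bl I2 C → Option C
  | .g _ _ _ _ c => some c
  | _ => none

/-- The vertex is a slot of a blob of class `a` or a possible root of such a blob. -/
def inq {Φ : Type} (cl : Bl → Φ) (tyo : Φ → Fin s → H.Dart) (J : Φ → Fin s → I2 → Prop) (a : Φ) :
    VQ H s Bl I2 C → Prop
  | .b b _ => cl b = a
  | .z j i v => J a j i ∧ (v = (tyo a j).fst ∨ v = (tyo a j).snd)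
  | .g _ _ _ _ _ => False

/-- The position in `H`. -/
def posq {Φ : Type} (xs ys : Fin s → Fin n) (tyo : Φ → Fin s → H.Dart) (a : Φ) :
    VQ H s Bl I2 C → Fin n
  | .b _ w => w
  | .z j _ v => if v = (tyo a j).fst then xs j else ys j
  | .g _ _ _ w _ => w

open Classical in
/-- The positions of class `a`. -/
noncomputable def PQ {Φ : Type} (xs ys : Fin s → Fin n) (cl : Bl → Φ)
    (tyo : Φ → Fin s → H.Dart) (J : Φ → Fin s → I2 → Prop) (F : Fin d → VQ H s Bl I2 C)
    (S : Finset (Fin d)) (a : Φ) : Finset (Fin n) :=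
  (S.filter (fun u => inq cl tyo J a (F u))).image (fun u => posq xs ys tyo a (F u))

open Classical in
/-- The passengers of the set `(j, i)`. -/
noncomputable def VVq (F : Fin d → VQ H s Bl I2 C) (S : Finset (Fin d)) (j : Fin s) (i : I2) :
    Finset (Fin n) :=
  univ.filter (fun v => ∃ u ∈ S, F u = .z j i v)

open Classical in
/-- The used blobs. -/
noncomputable def UB (F : Fin d → VQ H s Bl I2 C) (S : Finset (Fin d)) : Finset Bl :=
  S.biUnion (fun u => match blob (F u) with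
    | some b => {b}
    | none => ∅)

theorem mem_UB {F : Fin d → VQ H s Bl I2 C} {S : Finset (Fin d)} {u : Fin d} (hu : u ∈ S)
    {b : Bl} {w : Fin n} (h : F u = .b b w) : b ∈ UB F S := by
  classical
  unfold UB
  rw [mem_biUnion]
  refine ⟨u, hu, ?_⟩
  rw [h]
  simp [blob]

theorem card_UB (F : Fin d → VQ H s Bl I2 C) (S : Finset (Fin d)) :
    (UB F S).card ≤ S.card := by
  classical
  unfold UB
  refine card_biUnion_le.trans ((sum_le_card_nsmul _ _ 1 ?_).trans (by simp))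
  intro u _
  rcases blob (F u) with _ | b
  · simp
  · simp

/-- The colouring. -/
theorem colq [DecidableEq Bl] {xs ys : Fin s → Fin n} (hxy : ∀ j, H.Adj (xs j) (ys j))
    {ty : Bl → Fin s → H.Dart} {io : Bl → Fin s → I2} {R : C → C → Prop} {A : C → Prop}
    (hC : CxB R A n p) {L : SimpleGraph (Fin d)} {F : Fin d → VQ H s Bl I2 C}
    {S : Finset (Fin d)} (hSn : S.card ≤ n)
    (hadj : ∀ u ∈ S, ∀ v ∈ S, L.Adj u v → cq xs ys ty io R A (F u) (F v))
    {Φ : Type} (cl : Bl → Φ) (tyo : Φ → Fin s → H.Dart) (htyo : ∀ b, tyo (cl b) = ty b)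
    (J : Φ → Fin s → I2 → Prop) (hJ : ∀ b j, J (cl b) j (io b j))
    (hcx : (∀ b b', ty b = ty b' → cl b = cl b') ∨ ∀ u ∈ S, ∀ j i φ w c, F u ≠ .g j i φ w c)
    (hP : ∀ a, ¬ BadS H (p + 1) (PQ xs ys cl tyo J F S a))
    (hV : ∀ j i, ¬ BadS H (p + 1) (VVq F S j i))
    (hF : Frst (fun (b : Bl) (t : Fin s × I2) => io b t.1 = t.2) (UB F S)) :
    ¬ BadS L (p + 1) S := by
  classical
  unfold BadS at hP hV
  push Not at hP hV
  choose κ hκ using hP
  choose κz hκz using hV
  -- memberships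
  have memP : ∀ u ∈ S, ∀ b w, F u = .b b w → w ∈ PQ xs ys cl tyo J F S (cl b) := by
    intro u hu b w h
    refine mem_image.2 ⟨u, mem_filter.2 ⟨hu, ?_⟩, ?_⟩
    · rw [h]
      rfl
    · rw [h]
      rfl
  have memx : ∀ a j i, J a j i → (∃ u ∈ S, F u = .z j i (tyo a j).fst) →
      xs j ∈ PQ xs ys cl tyo J F S a := by
    rintro a j i hJa ⟨u, hu, h⟩
    refine mem_image.2 ⟨u, mem_filter.2 ⟨hu, ?_⟩, ?_⟩
    · rw [h]
      exact ⟨hJa, Or.inl rfl⟩
    · rw [h]
      simp [posq]
  have memy : ∀ a j i, J a j i → (∃ u ∈ S, F u = .z j i (tyo a j).snd) →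
      ys j ∈ PQ xs ys cl tyo J F S a := by
    rintro a j i hJa ⟨u, hu, h⟩
    refine mem_image.2 ⟨u, mem_filter.2 ⟨hu, ?_⟩, ?_⟩
    · rw [h]
      exact ⟨hJa, Or.inr rfl⟩
    · rw [h]
      have : (tyo a j).snd ≠ (tyo a j).fst := (tyo a j).adj.ne'
      simp [posq, this]
  -- the transitions
  have hg : ∀ (a : Φ) (j : Fin s) (i : I2), ∃ g : Equiv.Perm (Fin (p + 1)), J a j i →
      ((∃ u ∈ S, F u = .z j i (tyo a j).fst) → g (κz j i (tyo a j).fst) = κ a (xs j)) ∧
      ((∃ u ∈ S, F u = .z j i (tyo a j).snd) → g (κz j i (tyo a j).snd) = κ a (ys j)) := by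
    intro a j i
    by_cases h1 : ∃ u ∈ S, F u = .z j i (tyo a j).fst
    · by_cases h2 : ∃ u ∈ S, F u = .z j i (tyo a j).snd
      · by_cases hJa : J a j i
        · have hf : (tyo a j).fst ∈ VVq F S j i := mem_filter.2 ⟨mem_univ _, h1⟩
          have hs : (tyo a j).snd ∈ VVq F S j i := mem_filter.2 ⟨mem_univ _, h2⟩
          have e1 := hκz j i _ hf _ hs (tyo a j).adj
          have e2 := hκ a _ (memx a j i hJa h1) _ (memy a j i hJa h2) (hxy j)
          obtain ⟨g, h3, h4⟩ := MP3240C.Cri.perm_two e1 e2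
          exact ⟨g, fun _ => ⟨fun _ => h3, fun _ => h4⟩⟩
        · exact ⟨1, fun h => absurd h hJa⟩
      · exact ⟨Equiv.swap (κz j i (tyo a j).fst) (κ a (xs j)), fun _ =>
          ⟨fun _ => Equiv.swap_apply_left _ _, fun h => absurd h h2⟩⟩
    · exact ⟨Equiv.swap (κz j i (tyo a j).snd) (κ a (ys j)), fun _ =>
        ⟨fun h => absurd h h1, fun _ => Equiv.swap_apply_left _ _⟩⟩
  choose g hg using hg
  obtain ⟨τ, σ, hτσ⟩ := gain (fun (b : Bl) (t : Fin s × I2) => io b t.1 = t.2)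
    (fun b t => g (cl b) t.1 t.2) _ (UB F S) rfl hF
  have hστ : ∀ b ∈ UB F S, ∀ j, σ (j, io b j) = τ b * g (cl b) j (io b j) :=
    fun b hb j => hτσ b hb (j, io b j) rfl
  -- the complexes
  set Y : Finset C := S.biUnion (fun u => match cel (F u) with
    | some c => {c}
    | none => ∅) with hY
  obtain ⟨κC, hκC1, hκC2⟩ := hC Y (by
    refine (card_biUnion_le.trans ((sum_le_card_nsmul _ _ 1 ?_).trans (by simp))).trans hSn
    intro u _
    rcases cel (F u) with _ | c
    · simp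
    · simp)
  have hmem : ∀ u ∈ S, ∀ j i φ w c, F u = .g j i φ w c → c ∈ Y := by
    intro u hu j i φ w c h
    rw [hY, mem_biUnion]
    refine ⟨u, hu, ?_⟩
    rw [h]
    simp [cel]
  -- the colour of the slots of one type
  set c0 : Fin s → I2 → (Fin s → H.Dart) → Fin n → Fin (p + 1) := fun j i φ w =>
    if h : ∃ b ∈ UB F S, ty b = φ ∧ io b j = i then τ h.choose (κ (cl h.choose) w) else 0 with hc0
  set f : VQ H s Bl I2 C → Fin (p + 1) := fun v => match v with
    | .b b w => τ b (κ (cl b) w)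
    | .z j i v => σ (j, i) (κz j i v)
    | .g j i φ w c => (finSuccEquiv' (c0 j i φ w)).symm (κC c) with hf
  have hfb : ∀ b w, f (.b b w) = τ b (κ (cl b) w) := fun _ _ => rfl
  have hfz : ∀ j i v, f (.z j i v) = σ (j, i) (κz j i v) := fun _ _ _ => rfl
  have hfg : ∀ j i φ w c, f (.g j i φ w c) = (finSuccEquiv' (c0 j i φ w)).symm (κC c) :=
    fun _ _ _ _ _ => rfl
  -- a slot and a passenger
  have bzne : ∀ u ∈ S, ∀ v ∈ S, ∀ b w j i x, F u = .b b w → F v = .z j i x →
      bz xs ys ty io b w j i x → f (F u) ≠ f (F v) := by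
    intro u hu v hv b w j i x hFu hFv hz
    rw [hFu, hFv, hfb, hfz]
    obtain ⟨rfl, hz⟩ := hz
    have hb := mem_UB hu hFu
    have hJb := hJ b j
    rcases hz with ⟨h1, h2⟩ | ⟨h1, h2⟩
    · have hex : ∃ u ∈ S, F u = .z j (io b j) (tyo (cl b) j).fst := by
        rw [htyo]
        exact ⟨v, hv, by rw [hFv, h1]⟩
      have h3 := (hg (cl b) j (io b j) hJb).1 hex
      rw [htyo] at h3
      rw [h1, hστ b hb j, Equiv.Perm.mul_apply, h3]
      intro h
      exact hκ (cl b) w (memP u hu b w hFu) (xs j) (memx _ _ _ hJb hex) h2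
        ((τ b).injective h)
    · have hex : ∃ u ∈ S, F u = .z j (io b j) (tyo (cl b) j).snd := by
        rw [htyo]
        exact ⟨v, hv, by rw [hFv, h1]⟩
      have h3 := (hg (cl b) j (io b j) hJb).2 hex
      rw [htyo] at h3
      rw [h1, hστ b hb j, Equiv.Perm.mul_apply, h3]
      intro h
      exact hκ (cl b) w (memP u hu b w hFu) (ys j) (memy _ _ _ hJb hex) h2
        ((τ b).injective h)
  -- a slot and a vertex of a complex
  have bgne : ∀ u ∈ S, ∀ v ∈ S, ∀ b w j i φ w' c, F u = .b b w → F v = .g j i φ w' c →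
      (io b j = i ∧ ty b = φ ∧ w = w' ∧ A c) → f (F u) ≠ f (F v) := by
    intro u hu v hv b w j i φ w' c hFu hFv hz
    rcases hcx with hcx | hcx
    · rw [hFu, hFv, hfb, hfg]
      obtain ⟨rfl, rfl, rfl, hA⟩ := hz
      have hb := mem_UB hu hFu
      have hex : ∃ b' ∈ UB F S, ty b' = ty b ∧ io b' j = io b j := ⟨b, hb, rfl, rfl⟩
      have h1 : c0 j (io b j) (ty b) w = τ b (κ (cl b) w) := by
        simp only [hc0]
        rw [dif_pos hex]
        obtain ⟨h2, h3, h4⟩ := hex.choose_spec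
        have h5 : cl hex.choose = cl b := hcx _ _ h3
        have h6 := hστ _ h2 j
        have h7 := hστ b hb j
        rw [h4, h5] at h6
        rw [h6] at h7
        have h8 : τ hex.choose = τ b := mul_right_cancel h7
        rw [h5, h8]
      rw [h1]
      intro h
      have h2 := hκC2 c (hmem v hv _ _ _ _ _ hFv) hA
      apply h2
      have h3 : (finSuccEquiv' (τ b (κ (cl b) w))).symm none = τ b (κ (cl b) w) :=
        finSuccEquiv'_symm_none _
      exact ((finSuccEquiv' _).symm.injective (h3.trans h)).symm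
    · exact absurd hFv (hcx v hv _ _ _ _ _)
  intro hbad
  refine hbad ⟨fun u => f (F u), ?_⟩
  intro u hu v hv huv
  have e := hadj u hu v hv huv
  show f (F u) ≠ f (F v)
  rcases hFu : F u with ⟨b, w⟩ | ⟨j, i, x⟩ | ⟨j, i, φ, w, c⟩ <;>
    rcases hFv : F v with ⟨b', w'⟩ | ⟨j', i', x'⟩ | ⟨j', i', φ', w', c'⟩
  · rw [hFu, hFv] at e
    obtain ⟨rfl, e2⟩ := (e : b = b' ∧ H.Adj w w')
    rw [hfb, hfb]
    intro h
    exact hκ (cl b) w (memP u hu b w hFu) w' (memP v hv b w' hFv) e2 ((τ b).injective h)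
  · rw [← hFu, ← hFv]
    rw [hFu, hFv] at e
    exact bzne u hu v hv _ _ _ _ _ hFu hFv e
  · rw [← hFu, ← hFv]
    rw [hFu, hFv] at e
    exact bgne u hu v hv _ _ _ _ _ _ _ hFu hFv e
  · rw [← hFu, ← hFv]
    rw [hFu, hFv] at e
    exact (bzne v hv u hu _ _ _ _ _ hFv hFu e).symm
  · rw [hFu, hFv] at e
    exact (e : False).elim
  · rw [hFu, hFv] at e
    exact (e : False).elim
  · rw [← hFu, ← hFv]
    rw [hFu, hFv] at e
    exact (bgne v hv u hu _ _ _ _ _ _ _ hFv hFu e).symm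
  · rw [hFu, hFv] at e
    exact (e : False).elim
  · rw [hFu, hFv] at e
    obtain ⟨⟨rfl, rfl, rfl, rfl⟩, e2⟩ :=
      (e : (j = j' ∧ i = i' ∧ φ = φ' ∧ w = w') ∧ R c c')
    rw [hfg, hfg]
    intro h
    exact hκC1 _ (hmem u hu _ _ _ _ _ hFu) _ (hmem v hv _ _ _ _ _ hFv) e2
      ((finSuccEquiv' _).symm.injective h)

/-- A bad set of positions contains everything. -/
theorem bigq {xs ys : Fin s → Fin n} {F : Fin d → VQ H s Bl I2 C} {S : Finset (Fin d)}
    (hmin : ∀ S', BadS H (p + 1) S' → S.card ≤ S'.card)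
    {Φ : Type} {cl : Bl → Φ} {tyo : Φ → Fin s → H.Dart} {J : Φ → Fin s → I2 → Prop} {a : Φ}
    (hbad : BadS H (p + 1) (PQ xs ys cl tyo J F S a)) : ∀ u ∈ S, inq cl tyo J a (F u) := by
  classical
  intro u hu
  have h1 := hmin _ hbad
  have h2 : (PQ xs ys cl tyo J F S a).card ≤
      (S.filter (fun u => inq cl tyo J a (F u))).card := card_image_le
  have h3 : S.filter (fun u => inq cl tyo J a (F u)) = S :=
    eq_of_subset_of_card_le (filter_subset _ _) (h1.trans h2)
  rw [← h3] at hu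
  exact (mem_filter.1 hu).2

/-- **Row CRQ.** -/
theorem crq [DecidableEq Bl] {xs ys : Fin s → Fin n} (hxy : ∀ j, H.Adj (xs j) (ys j))
    {ty : Bl → Fin s → H.Dart} {io : Bl → Fin s → I2} {R : C → C → Prop} {A : C → Prop}
    (hC : CxB R A n p) {L : SimpleGraph (Fin d)} {F : Fin d → VQ H s Bl I2 C}
    {S : Finset (Fin d)} (hbad : BadS L (p + 1) S)
    (hmin : ∀ S', BadS H (p + 1) S' → S.card ≤ S'.card) (hSn : S.card ≤ n)
    (hadj : ∀ u ∈ S, ∀ v ∈ S, L.Adj u v → cq xs ys ty io R A (F u) (F v))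
    (hF : Frst (fun (b : Bl) (t : Fin s × I2) => io b t.1 = t.2) (UB F S)) :
    ∃ b, ∀ u ∈ S, (∃ w, F u = .b b w) ∨
      ∃ j, F u = .z j (io b j) (ty b j).fst ∨ F u = .z j (io b j) (ty b j).snd := by
  classical
  -- the passengers of one set are not bad
  have hV : ∀ j i, ¬ BadS H (p + 1) (VVq F S j i) := by
    intro j i hb
    have h1 := hmin _ hb
    have h2 : (VVq F S j i).card ≤ (S.filter (fun u => ∃ v, F u = .z j i v)).card := by
      have h3 : VVq F S j i ⊆ (S.filter (fun u => ∃ v, F u = .z j i v)).image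
          (fun u => match F u with
            | .b _ w => w
            | .z _ _ v => v
            | .g _ _ _ w _ => w) := by
        intro v hv
        obtain ⟨u, hu, hFu⟩ := (mem_filter.1 hv).2
        refine mem_image.2 ⟨u, mem_filter.2 ⟨hu, v, hFu⟩, ?_⟩
        rw [hFu]
      exact (card_le_card h3).trans card_image_le
    have h3 : S.filter (fun u => ∃ v, F u = .z j i v) = S :=
      eq_of_subset_of_card_le (filter_subset _ _) (h1.trans h2)
    refine hbad ⟨fun _ => 0, ?_⟩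
    intro u hu v hv huv
    exfalso
    have e := hadj u hu v hv huv
    rw [← h3] at hu hv
    obtain ⟨x, hx⟩ := (mem_filter.1 hu).2
    obtain ⟨y, hy⟩ := (mem_filter.1 hv).2
    rw [hx, hy] at e
    exact e
  -- no vertex of a complex
  have hno : ∀ u ∈ S, ∀ j i φ w c, F u ≠ .g j i φ w c := by
    by_contra hcon
    push Not at hcon
    obtain ⟨u, hu, j, i, φ, w, c, hc⟩ := hcon
    refine colq hxy hC hSn hadj ty id (fun _ => rfl) (fun _ _ _ => True) (fun _ _ => trivial)
      (Or.inl (fun _ _ h => h)) ?_ hV hF hbad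
    intro a ha
    have h1 := bigq hmin ha u hu
    rw [hc] at h1
    exact h1
  -- one blob
  obtain ⟨b, hb⟩ : ∃ b, BadS H (p + 1)
      (PQ xs ys (id : Bl → Bl) ty (fun b j i => i = io b j) F S b) := by
    by_contra hcon
    push Not at hcon
    exact colq hxy hC hSn hadj (id : Bl → Bl) ty (fun _ => rfl) (fun b j i => i = io b j)
      (fun _ _ => rfl) (Or.inr hno) hcon hV hF hbad
  refine ⟨b, ?_⟩
  intro u hu
  have h1 := bigq hmin hb u hu
  rcases hFu : F u with ⟨b', w⟩ | ⟨j, i, x⟩ | ⟨j, i, φ, w, c⟩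
  · rw [hFu] at h1
    have h2 : b' = b := h1
    rw [h2]
    exact Or.inl ⟨w, rfl⟩
  · rw [hFu] at h1
    obtain ⟨h2, h3⟩ := (h1 : i = io b j ∧ (x = (ty b j).fst ∨ x = (ty b j).snd))
    right
    refine ⟨j, ?_⟩
    rcases h3 with h3 | h3
    · left
      rw [h2, h3]
    · right
      rw [h2, h3]
  · exact absurd hFu (hno u hu _ _ _ _ _)

/-- Row CRQ for a sparse system. -/
theorem crq_sparse [DecidableEq Bl] {g : ℕ} {xs ys : Fin s → Fin n}
    (hxy : ∀ j, H.Adj (xs j) (ys j)) {ty : Bl → Fin s → H.Dart} {io : Bl → Fin s → I2}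
    {R : C → C → Prop} {A : C → Prop} (hC : CxB R A n p) {L : SimpleGraph (Fin d)}
    {F : Fin d → VQ H s Bl I2 C} {S : Finset (Fin d)} (hbad : BadS L (p + 1) S)
    (hmin : ∀ S', BadS H (p + 1) S' → S.card ≤ S'.card) (hSn : S.card ≤ n)
    (hadj : ∀ u ∈ S, ∀ v ∈ S, L.Adj u v → cq xs ys ty io R A (F u) (F v))
    (hinj : ∀ b, Function.Injective (io b)) (hio : Sparse g io) (hSg : S.card ≤ g) :
    ∃ b, ∀ u ∈ S, (∃ w, F u = .b b w) ∨
      ∃ j, F u = .z j (io b j) (ty b j).fst ∨ F u = .z j (io b j) (ty b j).snd :=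
  crq hxy hC hbad hmin hSn hadj (frst_pair hinj (frst_of_sparse hio _ ((card_UB F S).trans hSg)))

end

end MP3240X
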