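import Mathlib

/-!
# MP_3240be_co, rows LK: Lemma K of helper2 for hypertrees of cores (abstract form)

`CC` is a family of vertex sets (`cores`) of a graph `H`, such that two vertices of a core `o` are
not connected by the other cores.  If `X` is an independent set which meets all cores and `ρ ∈ X`,
then some independent set `Y` inside the component `Z` of `ρ` with `|Y| + 1 ≤ |X ∩ Z|` meets all
hard cores of `Z`.  A core is hard if every edge of `H` inside it has an end in a second core.
-/

set_option autoImplicit false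

namespace MP3240X

open Finset

set_option linter.unusedSectionVars false

variable {V : Type} [DecidableEq V]

/-- `u` and `v` lie in a common member of `S` -/
def Stp (S : Finset (Finset V)) (u v : V) : Prop := ∃ o ∈ S, u ∈ o ∧ v ∈ o

/-- `u` and `v` are connected by members of `S` -/
def Rch (S : Finset (Finset V)) : V → V → Prop := Relation.ReflTransGen (Stp S)

theorem Stp.symm {S : Finset (Finset V)} {u v : V} (h : Stp S u v) : Stp S v u := by
  obtain ⟨o, h1, h2, h3⟩ := h
  exact ⟨o, h1, h3, h2⟩

theorem Stp.mono {S S' : Finset (Finset V)} (hS : S ⊆ S') {u v : V} (h : Stp S u v) :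
    Stp S' u v := by
  obtain ⟨o, h1, h2⟩ := h
  exact ⟨o, hS h1, h2⟩

theorem Rch.refl (S : Finset (Finset V)) (u : V) : Rch S u u := Relation.ReflTransGen.refl

theorem Rch.trans {S : Finset (Finset V)} {u v w : V} (h : Rch S u v) (h' : Rch S v w) :
    Rch S u w := Relation.ReflTransGen.trans h h'

theorem Rch.symm {S : Finset (Finset V)} {u v : V} (h : Rch S u v) : Rch S v u := by
  induction h with
  | refl => exact Relation.ReflTransGen.refl
  | tail _ h2 ih => exact Relation.ReflTransGen.head (Stp.symm h2) ih

theorem Rch.mono {S S' : Finset (Finset V)} (hS : S ⊆ S') {u v : V} (h : Rch S u v) :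
    Rch S' u v := by
  induction h with
  | refl => exact Relation.ReflTransGen.refl
  | tail _ h2 ih => exact Relation.ReflTransGen.tail ih (Stp.mono hS h2)

theorem Stp.rch {S : Finset (Finset V)} {u v : V} (h : Stp S u v) : Rch S u v :=
  Relation.ReflTransGen.single h

/-- a set of vertices without edges -/
def Ind (H : SimpleGraph V) (X : Finset V) : Prop := ∀ x ∈ X, ∀ y ∈ X, ¬ H.Adj x y

/-- every edge inside `o` has an end in a second core -/
def Hard (H : SimpleGraph V) (CC : Finset (Finset V)) (o : Finset V) : Prop :=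
  ∀ x ∈ o, ∀ y ∈ o, H.Adj x y →
    (∃ o' ∈ CC, o' ≠ o ∧ x ∈ o') ∨ ∃ o' ∈ CC, o' ≠ o ∧ y ∈ o'

/-- two vertices of a core are not connected by the other cores -/
def Sep (CC : Finset (Finset V)) : Prop :=
  ∀ o ∈ CC, ∀ u ∈ o, ∀ v ∈ o, Rch (CC.erase o) u v → u = v

/-- an edge inside a component lies in a core -/
def Inn (H : SimpleGraph V) (CC : Finset (Finset V)) : Prop :=
  ∀ u v, H.Adj u v → Rch CC u v → ∃ o ∈ CC, u ∈ o ∧ v ∈ o

theorem erase_mono {S CC : Finset (Finset V)} (h : S ⊆ CC) (o : Finset V) :
    S.erase o ⊆ CC.erase o := Finset.erase_subset_erase o h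

/-- everything reachable from `v ∈ o` is reachable from exactly one vertex of `o` without `o` -/
theorem dec {S : Finset (Finset V)} {o : Finset V} {v z : V} (hv : v ∈ o) (h : Rch S v z) :
    ∃ w ∈ o, Rch (S.erase o) w z := by
  induction h with
  | refl => exact ⟨v, hv, Rch.refl _ _⟩
  | tail h1 h2 ih =>
    obtain ⟨w, hw, hr⟩ := ih
    obtain ⟨o', ho', h3, h4⟩ := h2
    by_cases ho : o' = o
    · subst ho
      exact ⟨_, h4, Rch.refl _ _⟩
    · exact ⟨w, hw, hr.trans (Stp.rch ⟨o', Finset.mem_erase.mpr ⟨ho, ho'⟩, h3, h4⟩)⟩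

theorem dec_uniq {CC S : Finset (Finset V)} (hsep : Sep CC) (hS : S ⊆ CC) {o : Finset V}
    (ho : o ∈ S) {w w' z : V} (hw : w ∈ o) (hw' : w' ∈ o) (h : Rch (S.erase o) w z)
    (h' : Rch (S.erase o) w' z) : w = w' :=
  hsep o (hS ho) w hw w' hw' ((h.trans h'.symm).mono (erase_mono hS o))

theorem rch_of_dec {S : Finset (Finset V)} {o : Finset V} (ho : o ∈ S) {v w z : V} (hv : v ∈ o)
    (hw : w ∈ o) (h : Rch (S.erase o) w z) : Rch S v z :=
  (Stp.rch ⟨o, ho, hv, hw⟩).trans (h.mono (Finset.erase_subset _ _))

open Classical in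
/-- the part of `X` in the component of `v` -/
noncomputable def part (S : Finset (Finset V)) (X : Finset V) (v : V) : Finset V :=
  X.filter (Rch S v)

theorem mem_part {S : Finset (Finset V)} {X : Finset V} {v z : V} :
    z ∈ part S X v ↔ z ∈ X ∧ Rch S v z := by
  classical
  unfold part
  exact Finset.mem_filter

theorem part_eq {S : Finset (Finset V)} {o : Finset V} (ho : o ∈ S)
    (X : Finset V) {v : V} (hv : v ∈ o) :
    part S X v = o.biUnion (fun w => part (S.erase o) X w) := by
  ext z
  rw [mem_part, Finset.mem_biUnion]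
  constructor
  · rintro ⟨h1, h2⟩
    obtain ⟨w, hw, h3⟩ := dec hv h2
    exact ⟨w, hw, mem_part.mpr ⟨h1, h3⟩⟩
  · rintro ⟨w, hw, h⟩
    obtain ⟨h1, h2⟩ := mem_part.mp h
    exact ⟨h1, rch_of_dec ho hv hw h2⟩

theorem part_card {CC S : Finset (Finset V)} (hsep : Sep CC) (hS : S ⊆ CC) {o : Finset V}
    (ho : o ∈ S) (X : Finset V) {v : V} (hv : v ∈ o) :
    (part S X v).card = ∑ w ∈ o, (part (S.erase o) X w).card := by
  rw [part_eq ho X hv, Finset.card_biUnion]
  intro w hw w' hw' hne
  refine Finset.disjoint_left.mpr ?_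
  intro z h h'
  exact hne (dec_uniq hsep hS ho hw hw' (mem_part.mp h).2 (mem_part.mp h').2)

/-- The requirement on the set `Y` for the component of `v` in `S`. -/
structure Good (H : SimpleGraph V) (CC S : Finset (Finset V)) (v : V) (Y : Finset V) : Prop where
  sub : ∀ y ∈ Y, Rch S v y
  ind : Ind H Y
  meet : ∀ o ∈ S, Hard H CC o → (∀ x ∈ o, Rch S v x) → ∃ x ∈ o, x ∈ Y

/-- glue good sets at the vertices of the core `o` -/
theorem glue {H : SimpleGraph V} {CC S : Finset (Finset V)} (hsep : Sep CC) (hinn : Inn H CC)
    (hS : S ⊆ CC) {o : Finset V} (ho : o ∈ S) {v : V} (hv : v ∈ o) (hne : ∀ o' ∈ CC, o'.Nonempty)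
    (hfull : ∀ w, Rch S v w → w ≠ v → ∀ o' ∈ CC, w ∈ o' → o' ∈ S)
    (f : V → Finset V) (hf : ∀ w ∈ o, Good H CC (S.erase o) w (f w))
    (hcross : ∀ w ∈ o, ∀ w' ∈ o, w ∈ f w → w' ∈ f w' → ¬ H.Adj w w')
    (hmeet : Hard H CC o → ∃ w ∈ o, w ∈ f w) :
    Good H CC S v (o.biUnion f) := by
  refine ⟨?_, ?_, ?_⟩
  · intro y hy
    obtain ⟨w, hw, h⟩ := Finset.mem_biUnion.mp hy
    exact rch_of_dec ho hv hw ((hf w hw).sub y h)
  · intro y hy y' hy' hadj
    obtain ⟨w, hw, h⟩ := Finset.mem_biUnion.mp hy
    obtain ⟨w', hw', h'⟩ := Finset.mem_biUnion.mp hy'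
    have h1 := (hf w hw).sub y h
    have h1' := (hf w' hw').sub y' h'
    by_cases hww : w = w'
    · subst hww
      exact (hf w hw).ind y h y' h' hadj
    · have hr : Rch S v y := rch_of_dec ho hv hw h1
      have hr' : Rch S v y' := rch_of_dec ho hv hw' h1'
      obtain ⟨o', ho', h2, h2'⟩ := hinn y y' hadj ((hr.symm.trans hr').mono hS)
      have ho'S : o' ∈ S := by
        by_cases hyv : y = v
        · apply hfull y' hr' _ o' ho' h2'
          intro h3
          rw [hyv, h3] at hadj
          exact H.loopless.irrefl _ hadj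
        · exact hfull y hr hyv o' ho' h2
      by_cases hoo : o' = o
      · subst hoo
        have e1 : y = w := (dec_uniq hsep hS ho hw h2 h1 (Rch.refl _ _)).symm
        have e2 : y' = w' := (dec_uniq hsep hS ho hw' h2' h1' (Rch.refl _ _)).symm
        subst e1 e2
        exact hcross y hw y' hw' h h' hadj
      · have h3 : Rch (S.erase o) w y' :=
          h1.trans (Stp.rch ⟨o', Finset.mem_erase.mpr ⟨hoo, ho'S⟩, h2, h2'⟩)
        exact hww (dec_uniq hsep hS ho hw hw' h3 h1')
  · intro o' ho' hhard hsub
    by_cases hoo : o' = o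
    · subst hoo
      obtain ⟨w, hw, h⟩ := hmeet hhard
      exact ⟨w, hw, Finset.mem_biUnion.mpr ⟨w, hw, h⟩⟩
    · obtain ⟨x, hx⟩ := hne o' (hS ho')
      obtain ⟨w, hw, h1⟩ := dec hv (hsub x hx)
      have hmem : o' ∈ S.erase o := Finset.mem_erase.mpr ⟨hoo, ho'⟩
      obtain ⟨z, hz, hz'⟩ := (hf w hw).meet o' hmem hhard (by
        intro z hz
        exact h1.trans (Stp.rch ⟨o', hmem, hx, hz⟩))
      exact ⟨z, hz, Finset.mem_biUnion.mpr ⟨w, hw, hz'⟩⟩

/-- keeping `X` is good -/
theorem good_part {H : SimpleGraph V} {CC S : Finset (Finset V)} (hS : S ⊆ CC) {X : Finset V}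
    (hX : Ind H X) (hXm : ∀ o ∈ CC, ∃ x ∈ o, x ∈ X) (v : V) : Good H CC S v (part S X v) := by
  refine ⟨fun y hy => (mem_part.mp hy).2, ?_, ?_⟩
  · intro x hx y hy
    exact hX x (mem_part.mp hx).1 y (mem_part.mp hy).1
  · intro o ho _ hsub
    obtain ⟨x, hx, hxX⟩ := hXm o (hS ho)
    exact ⟨x, hx, mem_part.mpr ⟨hxX, hsub x hx⟩⟩

/-- full branches stay full -/
theorem full_erase {CC S : Finset (Finset V)} (hsep : Sep CC) (hS : S ⊆ CC) {o : Finset V}
    (ho : o ∈ S) {v : V} (hv : v ∈ o)
    (hfull : ∀ w, Rch S v w → w ≠ v → ∀ o' ∈ CC, w ∈ o' → o' ∈ S) {w : V} (hw : w ∈ o) :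
    ∀ z, Rch (S.erase o) w z → z ≠ w → ∀ o' ∈ CC, z ∈ o' → o' ∈ S.erase o := by
  intro z hz hzw o' ho' hzo'
  have hzo : z ∉ o := fun h => hzw (dec_uniq hsep hS ho hw h hz (Rch.refl _ _)).symm
  have hzv : z ≠ v := by
    intro h
    rw [h] at hzo
    exact hzo hv
  refine Finset.mem_erase.mpr ⟨?_, hfull z (rch_of_dec ho hv hw hz) hzv o' ho' hzo'⟩
  intro h
  rw [h] at hzo'
  exact hzo hzo'

/-- The two statements of Lemma K for rooted branches. -/
theorem branch {H : SimpleGraph V} {CC : Finset (Finset V)} (hsep : Sep CC) (hinn : Inn H CC)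
    (hA1 : ∀ o ∈ CC, ∀ v, ∃ x ∈ o, ∃ y ∈ o, x ≠ v ∧ y ≠ v ∧ H.Adj x y) {X : Finset V}
    (hX : Ind H X) (hXm : ∀ o ∈ CC, ∃ x ∈ o, x ∈ X) :
    ∀ (N : ℕ) (S : Finset (Finset V)), S ⊆ CC → S.card = N → ∀ v : V,
      (∀ w, Rch S v w → w ≠ v → ∀ o ∈ CC, w ∈ o → o ∈ S) →
      (v ∈ X → ∃ Y : Finset V, Good H CC S v Y ∧ v ∉ Y ∧ Y.card + 1 ≤ (part S X v).card) ∧
      (v ∉ X → (∃ o ∈ S, v ∈ o) →
        ∃ Y : Finset V, Good H CC S v Y ∧ v ∈ Y ∧ Y.card ≤ (part S X v).card) := by
  classical
  intro N
  induction N with
  | zero =>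
    intro S hS hcard v hfull
    have hS0 : S = ∅ := Finset.card_eq_zero.mp hcard
    subst hS0
    refine ⟨?_, ?_⟩
    · intro hv
      refine ⟨∅, ⟨by simp, by intro x hx; simp at hx, by simp⟩, by simp, ?_⟩
      have : v ∈ part ∅ X v := mem_part.mpr ⟨hv, Rch.refl _ _⟩
      have := Finset.card_pos.mpr ⟨v, this⟩
      rw [Finset.card_empty]
      omega
    · rintro _ ⟨o, ho, _⟩
      simp at ho
  | succ N ih =>
    intro S hS hcard v hfull
    have hne : ∀ o' ∈ CC, o'.Nonempty := by
      intro o' ho'
      obtain ⟨x, hx, -⟩ := hA1 o' ho' v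
      exact ⟨x, hx⟩
    by_cases hex : ∃ o ∈ S, v ∈ o
    swap
    · -- no core at `v`
      refine ⟨?_, fun _ h => absurd h hex⟩
      intro hv
      have hcomp : ∀ z, Rch S v z → z = v := by
        intro z hz
        induction hz with
        | refl => rfl
        | tail _ h2 ih2 =>
          obtain ⟨o, ho, h3, -⟩ := h2
          rw [ih2] at h3
          exact absurd ⟨o, ho, h3⟩ hex
      refine ⟨∅, ⟨by simp, by intro x hx; simp at hx, ?_⟩, by simp, ?_⟩
      · intro o ho _ hsub
        obtain ⟨x, hx⟩ := hne o (hS ho)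
        have := hcomp x (hsub x hx)
        rw [this] at hx
        exact absurd ⟨o, ho, hx⟩ hex
      · have : v ∈ part S X v := mem_part.mpr ⟨hv, Rch.refl _ _⟩
        have := Finset.card_pos.mpr ⟨v, this⟩
        rw [Finset.card_empty]
        omega
    · obtain ⟨o, ho, hvo⟩ := hex
      have hSe : S.erase o ⊆ CC := (Finset.erase_subset _ _).trans hS
      have hce : (S.erase o).card = N := by
        rw [Finset.card_erase_of_mem ho, hcard]
        rfl
      have IH := fun (w : V) (hw : w ∈ o) =>
        ih (S.erase o) hSe hce w (full_erase hsep hS ho hvo hfull hw)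
      have hpc := part_card hsep hS ho X hvo
      have hmemf : ∀ (f : V → Finset V), (∀ w ∈ o, Good H CC (S.erase o) w (f w)) →
          ∀ w ∈ o, (w ∈ o.biUnion f ↔ w ∈ f w) := by
        intro f hf w hw
        rw [Finset.mem_biUnion]
        constructor
        · rintro ⟨w', hw', h⟩
          have := dec_uniq hsep hS ho hw' hw ((hf w' hw').sub w h) (Rch.refl _ _)
          rw [this] at h
          exact h
        · intro h
          exact ⟨w, hw, h⟩
      refine ⟨?_, ?_⟩
      · -- statement A
        intro hvX
        obtain ⟨Yv, hYv, hvY, hYc⟩ := (IH v hvo).1 hvX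
        by_cases hcase : Hard H CC o ∧ ∀ x ∈ o, x ∈ X → x = v
        · -- hard and met only in `v`
          obtain ⟨hhard, honly⟩ := hcase
          obtain ⟨x, hx, y, hy, hxv, hyv, hadj⟩ := hA1 o (hS ho) v
          obtain ⟨u, hu, huv, o', ho', hoo, huo'⟩ : ∃ u ∈ o, u ≠ v ∧
              ∃ o' ∈ CC, o' ≠ o ∧ u ∈ o' := by
            rcases hhard x hx y hy hadj with ⟨o', h1, h2, h3⟩ | ⟨o', h1, h2, h3⟩
            · exact ⟨x, hx, hxv, o', h1, h2, h3⟩
            · exact ⟨y, hy, hyv, o', h1, h2, h3⟩
          have huX : u ∉ X := fun h => huv (honly u hu h)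
          have ho'S : o' ∈ S.erase o := Finset.mem_erase.mpr
            ⟨hoo, hfull u (Stp.rch ⟨o, ho, hvo, hu⟩) huv o' ho' huo'⟩
          obtain ⟨Yu, hYu, huY, hYuc⟩ := (IH u hu).2 huX ⟨o', ho'S, huo'⟩
          set f : V → Finset V := fun w => if w = v then Yv else if w = u then Yu else
            part (S.erase o) X w with hfdef
          have hfv : f v = Yv := by simp [hfdef]
          have hfu : f u = Yu := by simp [hfdef, huv]
          have hfw : ∀ w, w ≠ v → w ≠ u → f w = part (S.erase o) X w := by
            intro w h1 h2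
            simp [hfdef, h1, h2]
          have hf : ∀ w ∈ o, Good H CC (S.erase o) w (f w) := by
            intro w hw
            by_cases h1 : w = v
            · rw [h1, hfv]
              exact hYv
            · by_cases h2 : w = u
              · rw [h2, hfu]
                exact hYu
              · rw [hfw w h1 h2]
                exact good_part hSe hX hXm w
          have hin : ∀ w ∈ o, w ∈ f w → w = u := by
            intro w hw h
            by_cases h1 : w = v
            · rw [h1, hfv] at h
              exact absurd h hvY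
            · by_contra h2
              rw [hfw w h1 h2] at h
              exact h1 (honly w hw (mem_part.mp h).1)
          refine ⟨o.biUnion f, glue hsep hinn hS ho hvo hne hfull f hf ?_ ?_, ?_, ?_⟩
          · intro w hw w' hw' h h' hadj'
            rw [hin w hw h, hin w' hw' h'] at hadj'
            exact H.loopless.irrefl _ hadj'
          · intro _
            exact ⟨u, hu, by rw [hfu]; exact huY⟩
          · rw [hmemf f hf v hvo, hfv]
            exact hvY
          · have h1 : (o.biUnion f).card ≤ ∑ w ∈ o, (f w).card := Finset.card_biUnion_le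
            have h2 : ∑ w ∈ o, (f w).card + 1 ≤ ∑ w ∈ o, (part (S.erase o) X w).card := by
              rw [← Finset.add_sum_erase o _ hvo, ← Finset.add_sum_erase o _ hvo, hfv]
              have h3 : ∑ w ∈ o.erase v, (f w).card ≤
                  ∑ w ∈ o.erase v, (part (S.erase o) X w).card := by
                apply Finset.sum_le_sum
                intro w hw
                have h1 := Finset.ne_of_mem_erase hw
                by_cases h2 : w = u
                · rw [h2, hfu]
                  exact hYuc
                · rw [hfw w h1 h2]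
              omega
            rw [hpc]
            omega
        · -- free, or met in a second vertex
          set f : V → Finset V := fun w => if w = v then Yv else part (S.erase o) X w with hfdef
          have hfv : f v = Yv := by simp [hfdef]
          have hfw : ∀ w, w ≠ v → f w = part (S.erase o) X w := by
            intro w h1
            simp [hfdef, h1]
          have hf : ∀ w ∈ o, Good H CC (S.erase o) w (f w) := by
            intro w hw
            by_cases h1 : w = v
            · rw [h1, hfv]
              exact hYv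
            · rw [hfw w h1]
              exact good_part hSe hX hXm w
          have hin : ∀ w ∈ o, w ∈ f w → w ∈ X := by
            intro w hw h
            by_cases h1 : w = v
            · rw [h1]
              exact hvX
            · rw [hfw w h1] at h
              exact (mem_part.mp h).1
          refine ⟨o.biUnion f, glue hsep hinn hS ho hvo hne hfull f hf ?_ ?_, ?_, ?_⟩
          · intro w hw w' hw' h h'
            exact hX w (hin w hw h) w' (hin w' hw' h')
          · intro hhard
            by_contra hno
            apply hcase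
            refine ⟨hhard, ?_⟩
            intro x hx hxX
            by_contra hxv
            apply hno
            exact ⟨x, hx, by rw [hfw x hxv]; exact mem_part.mpr ⟨hxX, Rch.refl _ _⟩⟩
          · rw [hmemf f hf v hvo, hfv]
            exact hvY
          · have h1 : (o.biUnion f).card ≤ ∑ w ∈ o, (f w).card := Finset.card_biUnion_le
            have h2 : ∑ w ∈ o, (f w).card + 1 ≤ ∑ w ∈ o, (part (S.erase o) X w).card := by
              rw [← Finset.add_sum_erase o _ hvo, ← Finset.add_sum_erase o _ hvo, hfv]
              have h3 : ∑ w ∈ o.erase v, (f w).card ≤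
                  ∑ w ∈ o.erase v, (part (S.erase o) X w).card := by
                apply Finset.sum_le_sum
                intro w hw
                rw [hfw w (Finset.ne_of_mem_erase hw)]
              omega
            rw [hpc]
            omega
      · -- statement B
        intro hvX _
        obtain ⟨x0, hx0, hx0X⟩ := hXm o (hS ho)
        have hx0v : x0 ≠ v := fun h => hvX (h ▸ hx0X)
        -- the set at `v`
        obtain ⟨Yv, hYv, hvY, hYc⟩ : ∃ Y : Finset V, Good H CC (S.erase o) v Y ∧ v ∈ Y ∧
            Y.card ≤ (part (S.erase o) X v).card + 1 := by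
          by_cases hex2 : ∃ o' ∈ S.erase o, v ∈ o'
          · obtain ⟨Y, h1, h2, h3⟩ := (IH v hvo).2 hvX hex2
            exact ⟨Y, h1, h2, by omega⟩
          · refine ⟨{v}, ⟨?_, ?_, ?_⟩, by simp, by simp⟩
            · intro y hy
              rw [Finset.mem_singleton] at hy
              rw [hy]
              exact Rch.refl _ _
            · intro x hx y hy hadj
              rw [Finset.mem_singleton] at hx hy
              rw [hx, hy] at hadj
              exact H.loopless.irrefl _ hadj
            · intro o' ho' _ hsub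
              exfalso
              obtain ⟨x, hx⟩ := hne o' (hSe ho')
              have hcomp : ∀ z, Rch (S.erase o) v z → z = v := by
                intro z hz
                induction hz with
                | refl => rfl
                | tail _ h2 ih2 =>
                  obtain ⟨o1, ho1, h3, -⟩ := h2
                  rw [ih2] at h3
                  exact absurd ⟨o1, ho1, h3⟩ hex2
              have := hcomp x (hsub x hx)
              rw [this] at hx
              exact hex2 ⟨o', ho', hx⟩
        have hchoice : ∀ w : V, ∃ Y : Finset V, w ∈ o → w ∈ X →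
            (Good H CC (S.erase o) w Y ∧ w ∉ Y ∧
              Y.card + 1 ≤ (part (S.erase o) X w).card) := by
          intro w
          by_cases hw : w ∈ o
          · by_cases hwX : w ∈ X
            · obtain ⟨Y, hY⟩ := (IH w hw).1 hwX
              exact ⟨Y, fun _ _ => hY⟩
            · exact ⟨∅, fun _ h => absurd h hwX⟩
          · exact ⟨∅, fun h => absurd h hw⟩
        choose g hg using hchoice
        set f : V → Finset V := fun w => if w = v then Yv else if w ∈ X then g w else
          part (S.erase o) X w with hfdef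
        have hfv : f v = Yv := by simp [hfdef]
        have hfX : ∀ w, w ∈ X → f w = g w := by
          intro w h
          have h1 : w ≠ v := fun h' => hvX (h' ▸ h)
          simp [hfdef, h1, h]
        have hfw : ∀ w, w ≠ v → w ∉ X → f w = part (S.erase o) X w := by
          intro w h1 h2
          simp [hfdef, h1, h2]
        have hf : ∀ w ∈ o, Good H CC (S.erase o) w (f w) := by
          intro w hw
          by_cases h1 : w = v
          · rw [h1, hfv]
            exact hYv
          · by_cases h2 : w ∈ X
            · rw [hfX w h2]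
              exact (hg w hw h2).1
            · rw [hfw w h1 h2]
              exact good_part hSe hX hXm w
        have hin : ∀ w ∈ o, w ∈ f w → w = v := by
          intro w hw h
          by_contra h1
          by_cases h2 : w ∈ X
          · rw [hfX w h2] at h
            exact (hg w hw h2).2.1 h
          · rw [hfw w h1 h2] at h
            exact h2 (mem_part.mp h).1
        refine ⟨o.biUnion f, glue hsep hinn hS ho hvo hne hfull f hf ?_ ?_, ?_, ?_⟩
        · intro w hw w' hw' h h' hadj'
          rw [hin w hw h, hin w' hw' h'] at hadj'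
          exact H.loopless.irrefl _ hadj'
        · intro _
          exact ⟨v, hvo, by rw [hfv]; exact hvY⟩
        · rw [hmemf f hf v hvo, hfv]
          exact hvY
        · have h1 : (o.biUnion f).card ≤ ∑ w ∈ o, (f w).card := Finset.card_biUnion_le
          have hx0e : x0 ∈ o.erase v := Finset.mem_erase.mpr ⟨hx0v, hx0⟩
          have h2 : ∑ w ∈ o, (f w).card ≤ ∑ w ∈ o, (part (S.erase o) X w).card := by
            rw [← Finset.add_sum_erase o _ hvo, ← Finset.add_sum_erase o _ hvo, hfv,
              ← Finset.add_sum_erase (o.erase v) _ hx0e,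
              ← Finset.add_sum_erase (o.erase v) _ hx0e, hfX x0 hx0X]
            have h4 := (hg x0 hx0 hx0X).2.2
            have h3 : ∑ w ∈ (o.erase v).erase x0, (f w).card ≤
                ∑ w ∈ (o.erase v).erase x0, (part (S.erase o) X w).card := by
              apply Finset.sum_le_sum
              intro w hw
              have hw1 := Finset.mem_of_mem_erase hw
              have h1 := Finset.ne_of_mem_erase hw1
              have hwo := Finset.mem_of_mem_erase hw1
              by_cases h2 : w ∈ X
              · rw [hfX w h2]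
                have := (hg w hwo h2).2.2
                omega
              · rw [hfw w h1 h2]
            omega
          rw [hpc]
          omega

/-- **Lemma K.** -/
theorem lemmaK {H : SimpleGraph V} {CC : Finset (Finset V)} (hsep : Sep CC) (hinn : Inn H CC)
    (hA1 : ∀ o ∈ CC, ∀ v, ∃ x ∈ o, ∃ y ∈ o, x ≠ v ∧ y ≠ v ∧ H.Adj x y) {X : Finset V}
    (hX : Ind H X) (hXm : ∀ o ∈ CC, ∃ x ∈ o, x ∈ X) {ρ : V} (hρ : ρ ∈ X) :
    ∃ Y : Finset V, Ind H Y ∧ (∀ y ∈ Y, Rch CC ρ y) ∧ Y.card + 1 ≤ (part CC X ρ).card ∧
      ∀ o ∈ CC, Hard H CC o → (∀ x ∈ o, Rch CC ρ x) → ∃ x ∈ o, x ∈ Y := by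
  obtain ⟨Y, h1, -, h3⟩ := (branch hsep hinn hA1 hX hXm CC.card CC (Finset.Subset.refl _) rfl ρ
    (fun _ _ _ o ho _ => ho)).1 hρ
  exact ⟨Y, h1.ind, h1.sub, h3, h1.meet⟩

end MP3240X
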