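import Mathlib
import Pool.Agent.Lib.MP_3240be_co.X70.Lk

/-!
# MP_3240be_co, row WLK: the walk (abstract form), and the sets `X'`, `F`

`CC` is the family of (vertex sets of) cores of a graph `H`.  Besides the hypotheses of Lemma K we
assume `Light`: a matching `Lam` of edges of `H` which join different clusters does not close up
with the cores.  Then for every independent set `X` which meets all cores there are an independent
set `X'` with `|X'| + 1 ≤ |X|` and an edge in every core not met by `X'`, such that these edges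
form an induced matching and their ends have no neighbour in `X'`.
-/

set_option autoImplicit false
set_option linter.unusedSectionVars false

namespace MP3240X

open Finset

variable {V : Type} [DecidableEq V]

/-- a step inside a core or along an edge of `Lam` different from `p` -/
def StpL (CC : Finset (Finset V)) (Lam : Finset (V × V)) (p : V × V) (u w : V) : Prop :=
  Stp CC u w ∨ ((u, w) ∈ Lam ∧ (u, w) ≠ p) ∨ ((w, u) ∈ Lam ∧ (w, u) ≠ p)

/-- `Lam` is a matching of edges of `H` between core vertices of different clusters -/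
structure Mat (H : SimpleGraph V) (CC : Finset (Finset V)) (Lam : Finset (V × V)) : Prop where
  adj : ∀ p ∈ Lam, H.Adj p.1 p.2
  far : ∀ p ∈ Lam, ¬ Rch CC p.1 p.2
  left : ∀ p ∈ Lam, ∃ o ∈ CC, p.1 ∈ o
  right : ∀ p ∈ Lam, ∃ o ∈ CC, p.2 ∈ o
  mat : ∀ p ∈ Lam, ∀ q ∈ Lam, p ≠ q → p.1 ≠ q.1 ∧ p.1 ≠ q.2 ∧ p.2 ≠ q.1 ∧ p.2 ≠ q.2

/-- every edge of a matching between different clusters is a bridge -/
def Light (H : SimpleGraph V) (CC : Finset (Finset V)) : Prop :=
  ∀ Lam : Finset (V × V), Mat H CC Lam → ∀ p ∈ Lam,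
    ¬ Relation.ReflTransGen (StpL CC Lam p) p.2 p.1

theorem Rch.stpL {CC : Finset (Finset V)} {u w : V} (h : Rch CC u w) (Lam : Finset (V × V))
    (p : V × V) : Relation.ReflTransGen (StpL CC Lam p) u w := by
  induction h with
  | refl => exact Relation.ReflTransGen.refl
  | tail _ h2 ih => exact Relation.ReflTransGen.tail ih (Or.inl h2)

/-- **The walk.**  Some cluster has no blocked vertex. -/
theorem sink {H : SimpleGraph V} {CC : Finset (Finset V)} (hlight : Light H CC) {X : Finset V}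
    (hXc : ∀ x ∈ X, ∃ o ∈ CC, x ∈ o) (hne : X.Nonempty) :
    ∃ ρ ∈ X, ∀ v, Rch CC ρ v → v ∉ X → (∃ o ∈ CC, v ∈ o) → ∀ t ∈ X, ¬ Rch CC ρ t →
      ¬ H.Adj v t := by
  classical
  by_contra hno
  push Not at hno
  choose! v hv using hno
  obtain ⟨s0, hs0⟩ := hne
  -- `v x` is blocked in the cluster of `x ∈ X`
  have hv1 : ∀ x ∈ X, Rch CC x (v x) := fun x hx => (hv x hx).1
  have hv2 : ∀ x ∈ X, v x ∉ X := fun x hx => (hv x hx).2.1
  have hv3 : ∀ x ∈ X, ∃ o ∈ CC, v x ∈ o := fun x hx => (hv x hx).2.2.1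
  have hv4 : ∀ x ∈ X, ∃ t ∈ X, ¬ Rch CC x t ∧ H.Adj (v x) t := fun x hx => (hv x hx).2.2.2
  choose! t ht using hv4
  set s : ℕ → V := fun i => t^[i] s0 with hs
  have hs1 : ∀ i, s (i + 1) = t (s i) := by
    intro i
    simp only [hs]
    exact Function.iterate_succ_apply' t i s0
  have hsX : ∀ i, s i ∈ X := by
    intro i
    induction i with
    | zero => exact hs0
    | succ i ih =>
      rw [hs1]
      exact (ht (s i) ih).1
  -- some cluster is visited twice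
  have hrep : ∃ d, 0 < d ∧ ∃ i, Rch CC (s i) (s (i + d)) := by
    have hmaps : Set.MapsTo s (Set.univ : Set ℕ) (X : Set V) := fun i _ => hsX i
    obtain ⟨i, -, j, -, hij, heq⟩ := Set.infinite_univ.exists_ne_map_eq_of_mapsTo hmaps
      X.finite_toSet
    rcases lt_or_gt_of_ne hij with h | h
    · refine ⟨j - i, by omega, i, ?_⟩
      rw [Nat.add_sub_cancel' h.le, heq]
      exact Rch.refl _ _
    · refine ⟨i - j, by omega, j, ?_⟩
      rw [Nat.add_sub_cancel' h.le, heq]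
      exact Rch.refl _ _
  obtain ⟨hd0, i, hi⟩ := Nat.find_spec hrep
  set d := Nat.find hrep with hd
  have hmin : ∀ a b, a < b → b < a + d → ¬ Rch CC (s a) (s b) := by
    intro a b hab hbd hr
    have : b - a < d := by omega
    apply Nat.find_min hrep this
    refine ⟨by omega, a, ?_⟩
    rw [Nat.add_sub_cancel' hab.le]
    exact hr
  have hmin2 : ∀ a b, a ≠ b → a < d → b < d → ∀ c, ¬ Rch CC (s (c + a)) (s (c + b)) := by
    intro a b hab ha hb c hr
    rcases lt_or_gt_of_ne hab with h | h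
    · exact hmin (c + a) (c + b) (by omega) (by omega) hr
    · exact hmin (c + b) (c + a) (by omega) (by omega) hr.symm
  set Lam : Finset (V × V) := (Finset.range d).image (fun a => (v (s (i + a)), s (i + 1 + a)))
    with hLam
  have hmem : ∀ p, p ∈ Lam ↔ ∃ a < d, p = (v (s (i + a)), s (i + 1 + a)) := by
    intro p
    rw [hLam, Finset.mem_image]
    constructor
    · rintro ⟨a, ha, rfl⟩
      exact ⟨a, Finset.mem_range.mp ha, rfl⟩
    · rintro ⟨a, ha, rfl⟩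
      exact ⟨a, Finset.mem_range.mpr ha, rfl⟩
  have hnext : ∀ a, s (i + 1 + a) = t (s (i + a)) := by
    intro a
    rw [show i + 1 + a = (i + a) + 1 by ring, hs1]
  have hvne : ∀ a b, a ≠ b → a < d → b < d → v (s (i + a)) ≠ v (s (i + b)) := by
    intro a b hab ha hb h
    apply hmin2 a b hab ha hb i
    have h1 := hv1 _ (hsX (i + a))
    rw [h] at h1
    exact h1.trans (hv1 _ (hsX (i + b))).symm
  have hmat : Mat H CC Lam := by
    refine ⟨?_, ?_, ?_, ?_, ?_⟩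
    · intro p hp
      obtain ⟨a, ha, rfl⟩ := (hmem p).mp hp
      show H.Adj (v (s (i + a))) (s (i + 1 + a))
      rw [hnext]
      exact (ht _ (hsX (i + a))).2.2
    · intro p hp
      obtain ⟨a, ha, rfl⟩ := (hmem p).mp hp
      show ¬ Rch CC (v (s (i + a))) (s (i + 1 + a))
      rw [hnext]
      intro hr
      exact (ht _ (hsX (i + a))).2.1 ((hv1 _ (hsX (i + a))).trans hr)
    · intro p hp
      obtain ⟨a, ha, rfl⟩ := (hmem p).mp hp
      exact hv3 _ (hsX (i + a))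
    · intro p hp
      obtain ⟨a, ha, rfl⟩ := (hmem p).mp hp
      exact hXc _ (hsX (i + 1 + a))
    · intro p hp q hq hpq
      obtain ⟨a, ha, rfl⟩ := (hmem p).mp hp
      obtain ⟨b, hb, rfl⟩ := (hmem q).mp hq
      have hab : a ≠ b := by
        rintro rfl
        exact hpq rfl
      refine ⟨hvne a b hab ha hb, ?_, ?_, ?_⟩
      · intro h
        apply hv2 _ (hsX (i + a))
        simp only at h
        rw [h]
        exact hsX _
      · intro h
        apply hv2 _ (hsX (i + b))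
        simp only at h
        rw [← h]
        exact hsX _
      · intro h
        apply hmin2 a b hab ha hb (i + 1)
        simp only at h
        rw [h]
        exact Rch.refl _ _
  have hp0 : (v (s (i + 0)), s (i + 1 + 0)) ∈ Lam := (hmem _).mpr ⟨0, hd0, rfl⟩
  apply hlight Lam hmat _ hp0
  have hreach : ∀ a, a < d → Relation.ReflTransGen (StpL CC Lam (v (s (i + 0)), s (i + 1 + 0)))
      (s (i + 1 + 0)) (s (i + 1 + a)) := by
    intro a
    induction a with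
    | zero => exact fun _ => Relation.ReflTransGen.refl
    | succ a ih =>
      intro ha
      have h1 := ih (by omega)
      have h2 : Relation.ReflTransGen (StpL CC Lam (v (s (i + 0)), s (i + 1 + 0)))
          (s (i + 1 + a)) (v (s (i + (a + 1)))) := by
        have := (hv1 _ (hsX (i + (a + 1)))).stpL Lam (v (s (i + 0)), s (i + 1 + 0))
        rw [show i + 1 + a = i + (a + 1) by ring]
        exact this
      refine (h1.trans h2).tail ?_
      right
      left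
      refine ⟨(hmem _).mpr ⟨a + 1, ha, rfl⟩, ?_⟩
      intro h
      exact hvne (a + 1) 0 (by omega) ha hd0 (congrArg Prod.fst h)
  have h1 := hreach (d - 1) (by omega)
  have h2 : Rch CC (s (i + 1 + (d - 1))) (v (s (i + 0))) := by
    rw [show i + 1 + (d - 1) = i + d by omega]
    exact hi.symm.trans (hv1 _ (hsX i))
  exact h1.trans (h2.stpL _ _)

/-- **The sets `X'` and `F`.** -/
theorem walk_abs {H : SimpleGraph V} {CC : Finset (Finset V)} (hsep : Sep CC) (hinn : Inn H CC)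
    (hA1 : ∀ o ∈ CC, ∀ v, ∃ x ∈ o, ∃ y ∈ o, x ≠ v ∧ y ≠ v ∧ H.Adj x y) (hlight : Light H CC)
    (hCC : CC.Nonempty) {X : Finset V} (hX : Ind H X) (hXm : ∀ o ∈ CC, ∃ x ∈ o, x ∈ X) :
    ∃ (X' : Finset V) (e : Finset V → V × V), Ind H X' ∧ X'.card + 1 ≤ X.card ∧
      (∀ x ∈ X', ∃ o ∈ CC, x ∈ o) ∧
      ∀ o ∈ CC, (∀ x ∈ o, x ∉ X') →
        (e o).1 ∈ o ∧ (e o).2 ∈ o ∧ H.Adj (e o).1 (e o).2 ∧
        (∀ o' ∈ CC, o' ≠ o → (e o).1 ∉ o' ∧ (e o).2 ∉ o') ∧
        (∀ x ∈ X', ¬ H.Adj x (e o).1 ∧ ¬ H.Adj x (e o).2) ∧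
        ∀ o' ∈ CC, (∀ x ∈ o', x ∉ X') → o' ≠ o →
          ¬ H.Adj (e o).1 (e o').1 ∧ ¬ H.Adj (e o).1 (e o').2 ∧
          ¬ H.Adj (e o).2 (e o').1 ∧ ¬ H.Adj (e o).2 (e o').2 := by
  classical
  -- only the core vertices of `X` matter
  set X0 : Finset V := X.filter (fun x => ∃ o ∈ CC, x ∈ o) with hX0
  have hX0s : X0 ⊆ X := Finset.filter_subset _ _
  have hX0i : Ind H X0 := fun x hx y hy => hX x (hX0s hx) y (hX0s hy)
  have hX0c : ∀ x ∈ X0, ∃ o ∈ CC, x ∈ o := fun x hx => (Finset.mem_filter.mp hx).2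
  have hX0m : ∀ o ∈ CC, ∃ x ∈ o, x ∈ X0 := by
    intro o ho
    obtain ⟨x, hx, hxX⟩ := hXm o ho
    exact ⟨x, hx, Finset.mem_filter.mpr ⟨hxX, o, ho, hx⟩⟩
  have hX0n : X0.Nonempty := by
    obtain ⟨o, ho⟩ := hCC
    obtain ⟨x, -, hx⟩ := hX0m o ho
    exact ⟨x, hx⟩
  obtain ⟨ρ, hρ, hunb⟩ := sink hlight hX0c hX0n
  obtain ⟨Y, hYi, hYr, hYc, hYm⟩ := lemmaK hsep hinn hA1 hX0i hX0m hρ
  -- every vertex of `Y` in a core: restrict `Y` to the core vertices
  set Y0 : Finset V := Y.filter (fun x => ∃ o ∈ CC, x ∈ o) with hY0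
  have hY0s : Y0 ⊆ Y := Finset.filter_subset _ _
  have hY0c : ∀ x ∈ Y0, ∃ o ∈ CC, x ∈ o := fun x hx => (Finset.mem_filter.mp hx).2
  have hY0m : ∀ o ∈ CC, Hard H CC o → (∀ x ∈ o, Rch CC ρ x) → ∃ x ∈ o, x ∈ Y0 := by
    intro o ho h1 h2
    obtain ⟨x, hx, hxY⟩ := hYm o ho h1 h2
    exact ⟨x, hx, Finset.mem_filter.mpr ⟨hxY, o, ho, hx⟩⟩
  set Z : Finset V := X0.filter (fun x => ¬ Rch CC ρ x) with hZ
  have hZm : ∀ x, x ∈ Z ↔ x ∈ X0 ∧ ¬ Rch CC ρ x := fun x => Finset.mem_filter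
  have hcross : ∀ x ∈ Z, ∀ y, Rch CC ρ y → (∃ o ∈ CC, y ∈ o) → ¬ H.Adj y x := by
    intro x hx y hy hyc
    by_cases hyX : y ∈ X0
    · exact hX0i y hyX x ((hZm x).mp hx).1
    · exact hunb y hy hyX hyc x ((hZm x).mp hx).1 ((hZm x).mp hx).2
  have hcluster : ∀ o ∈ CC, (∀ x ∈ o, x ∉ Z ∪ Y0) → ∀ x ∈ o, Rch CC ρ x := by
    intro o ho hun x hx
    obtain ⟨z, hz, hzX⟩ := hX0m o ho
    have hzr : Rch CC ρ z := by
      by_contra h
      exact hun z hz (Finset.mem_union_left _ ((hZm z).mpr ⟨hzX, h⟩))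
    exact hzr.trans (Stp.rch ⟨o, ho, hz, hx⟩)
  have hfree : ∀ o ∈ CC, (∀ x ∈ o, x ∉ Z ∪ Y0) → ∃ p : V × V, p.1 ∈ o ∧ p.2 ∈ o ∧
      H.Adj p.1 p.2 ∧ ∀ o' ∈ CC, o' ≠ o → p.1 ∉ o' ∧ p.2 ∉ o' := by
    intro o ho hun
    have hnh : ¬ Hard H CC o := by
      intro hh
      obtain ⟨x, hx, hxY⟩ := hY0m o ho hh (hcluster o ho hun)
      exact hun x hx (Finset.mem_union_right _ hxY)
    unfold Hard at hnh
    push Not at hnh
    obtain ⟨x, hx, y, hy, hadj, h1, h2⟩ := hnh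
    exact ⟨(x, y), hx, hy, hadj, fun o' ho' hne => ⟨h1 o' ho' hne, h2 o' ho' hne⟩⟩
  have hch : ∀ o : Finset V, ∃ p : V × V, o ∈ CC → (∀ x ∈ o, x ∉ Z ∪ Y0) →
      (p.1 ∈ o ∧ p.2 ∈ o ∧ H.Adj p.1 p.2 ∧ ∀ o' ∈ CC, o' ≠ o → p.1 ∉ o' ∧ p.2 ∉ o') := by
    intro o
    by_cases h : o ∈ CC ∧ ∀ x ∈ o, x ∉ Z ∪ Y0
    · obtain ⟨p, hp⟩ := hfree o h.1 h.2
      exact ⟨p, fun _ _ => hp⟩
    · exact ⟨(ρ, ρ), fun h1 h2 => absurd ⟨h1, h2⟩ h⟩
  choose e he using hch
  -- an end of a special edge has no neighbour in `X'`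
  have hend : ∀ o ∈ CC, (∀ x ∈ o, x ∉ Z ∪ Y0) → ∀ a ∈ o, (∀ o' ∈ CC, o' ≠ o → a ∉ o') →
      ∀ x ∈ Z ∪ Y0, ¬ H.Adj x a := by
    intro o ho hun a ha hpriv x hx hadj
    have har := hcluster o ho hun a ha
    rcases Finset.mem_union.mp hx with h | h
    · exact hcross x h a har ⟨o, ho, ha⟩ hadj.symm
    · obtain ⟨o', ho', h1, h2⟩ := hinn x a hadj ((hYr x (hY0s h)).symm.trans har)
      by_cases hoo : o' = o
      · rw [hoo] at h1
        exact hun x h1 hx
      · exact hpriv o' ho' hoo h2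
  have hpair : ∀ o ∈ CC, (∀ x ∈ o, x ∉ Z ∪ Y0) → ∀ o' ∈ CC, (∀ x ∈ o', x ∉ Z ∪ Y0) → o' ≠ o →
      ∀ a ∈ o, (∀ o'' ∈ CC, o'' ≠ o → a ∉ o'') → ∀ b ∈ o', (∀ o'' ∈ CC, o'' ≠ o' → b ∉ o'') →
      ¬ H.Adj a b := by
    intro o ho hun o' ho' hun' hne a ha hpa b hb hpb hadj
    obtain ⟨o'', ho'', h1, h2⟩ := hinn a b hadj
      ((hcluster o ho hun a ha).symm.trans (hcluster o' ho' hun' b hb))
    by_cases h3 : o'' = o
    · exact hpb o'' ho'' (by rw [h3]; exact hne.symm) h2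
    · exact hpa o'' ho'' h3 h1
  refine ⟨Z ∪ Y0, e, ?_, ?_, ?_, ?_⟩
  · intro x hx y hy hadj
    rcases Finset.mem_union.mp hx with h | h <;> rcases Finset.mem_union.mp hy with h' | h'
    · exact hX0i x ((hZm x).mp h).1 y ((hZm y).mp h').1 hadj
    · exact hcross x h y (hYr y (hY0s h')) (hY0c y h') hadj.symm
    · exact hcross y h' x (hYr x (hY0s h)) (hY0c x h) hadj
    · exact hYi x (hY0s h) y (hY0s h') hadj
  · have h1 : (Z ∪ Y0).card ≤ Z.card + Y.card :=
      (Finset.card_union_le _ _).trans (Nat.add_le_add_left (Finset.card_le_card hY0s) _)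
    have h2 : Z.card + (part CC X0 ρ).card = X0.card := by
      have h3 := Finset.card_filter_add_card_filter_not (s := X0) (fun x => ¬ Rch CC ρ x)
      have h4 : X0.filter (fun x => ¬ ¬ Rch CC ρ x) = part CC X0 ρ := by
        ext x
        rw [mem_part, Finset.mem_filter, not_not]
      rw [h4] at h3
      exact h3
    have h5 := Finset.card_le_card hX0s
    omega
  · intro x hx
    rcases Finset.mem_union.mp hx with h | h
    · exact hX0c x ((hZm x).mp h).1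
    · exact hY0c x h
  · intro o ho hun
    obtain ⟨h1, h2, h3, h4⟩ := he o ho hun
    refine ⟨h1, h2, h3, h4, ?_, ?_⟩
    · intro x hx
      exact ⟨hend o ho hun _ h1 (fun o' ho' hne => (h4 o' ho' hne).1) x hx,
        hend o ho hun _ h2 (fun o' ho' hne => (h4 o' ho' hne).2) x hx⟩
    · intro o' ho' hun' hne
      obtain ⟨g1, g2, g3, g4⟩ := he o' ho' hun'
      have p1 : ∀ o'' ∈ CC, o'' ≠ o → (e o).1 ∉ o'' := fun o'' h h' => (h4 o'' h h').1
      have p2 : ∀ o'' ∈ CC, o'' ≠ o → (e o).2 ∉ o'' := fun o'' h h' => (h4 o'' h h').2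
      have q1 : ∀ o'' ∈ CC, o'' ≠ o' → (e o').1 ∉ o'' := fun o'' h h' => (g4 o'' h h').1
      have q2 : ∀ o'' ∈ CC, o'' ≠ o' → (e o').2 ∉ o'' := fun o'' h h' => (g4 o'' h h').2
      exact ⟨hpair o ho hun o' ho' hun' hne _ h1 p1 _ g1 q1,
        hpair o ho hun o' ho' hun' hne _ h1 p1 _ g2 q2,
        hpair o ho hun o' ho' hun' hne _ h2 p2 _ g1 q1,
        hpair o ho hun o' ho' hun' hne _ h2 p2 _ g2 q2⟩

end MP3240X
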